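import Pool.Agent.GEN.StmtsZC

/-!
Squad GEN, row DCA: the algebra of the decomposition with respect to a stable set of variables.
-/

set_option autoImplicit false

namespace Pool.Agent.GEN.H66

open Finset Pool.Agent.Helper6_Mono Pool.Agent.Helper30_Simp
  Pool.Agent.Helper30_Simp.H32 Pool.Agent.Helper30_Simp2 Pool.Agent.Helper30_Simp2.H63

section

variable {k : Type} [Field k] {σ : Type}

lemma aeval_part {S : Type} [CommRing S] [Algebra k S] (f : MvPolynomial σ k)
    (I : Finset (σ →₀ ℕ)) (x : σ → S) : MvPolynomial.aeval x (part f I) =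
      ∑ α ∈ I, MvPolynomial.aeval x (MvPolynomial.monomial α (MvPolynomial.coeff α f)) := by
  rw [part, map_sum]

/-- A monomial which meets `K` at most once. -/
lemma stab_zero {I : Finset (σ →₀ ℕ)} {K : Finset σ} (h : Stab I K) {α : σ →₀ ℕ} (hα : α ∈ I)
    {j : σ} (hj : j ∈ K) (hj0 : α j ≠ 0) {i : σ} (hi : i ∈ K) (hij : i ≠ j) : α i = 0 := by
  classical
  have h1 := h.2.1 α hα
  have h2 : α i + α j ≤ ∑ j ∈ K, α j := by
    have h3 : ∑ l ∈ ({i, j} : Finset σ), α l ≤ ∑ l ∈ K, α l := by
      refine Finset.sum_le_sum_of_subset ?_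
      intro l hl
      rcases Finset.mem_insert.mp hl with rfl | hl
      · exact hi
      · rw [Finset.mem_singleton.mp hl]
        exact hj
    rwa [Finset.sum_pair hij] at h3
  omega

lemma stab_one {I : Finset (σ →₀ ℕ)} {K : Finset σ} (h : Stab I K) {α : σ →₀ ℕ} (hα : α ∈ I)
    {j : σ} (hj : j ∈ K) (hj0 : α j ≠ 0) : α j = 1 := by
  have h1 := h.2.1 α hα
  have h2 : α j ≤ ∑ j ∈ K, α j := Finset.single_le_sum (f := fun j => α j)
    (fun _ _ => Nat.zero_le _) hj
  omega

lemma mem_keep {I : Finset (σ →₀ ℕ)} {K K' : Finset σ} {α : σ →₀ ℕ} :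
    α ∈ keep I K K' ↔ α ∈ I ∧ ∀ j ∈ K, j ∉ K' → α j = 0 := by
  classical
  unfold keep
  simp only [Finset.mem_filter]

lemma sum_keep {A : Type} [AddCommMonoid A] (I : Finset (σ →₀ ℕ)) (K K' : Finset σ)
    (F : (σ →₀ ℕ) → A) (P : (σ →₀ ℕ) → Prop) [DecidablePred P]
    (hP : ∀ α, P α ↔ ∀ j ∈ K, j ∉ K' → α j = 0) :
    ∑ α ∈ keep I K K', F α = ∑ α ∈ I, if P α then F α else 0 := by
  classical
  rw [← Finset.sum_filter]
  refine Finset.sum_congr ?_ fun _ _ => rfl
  ext α
  rw [mem_keep, Finset.mem_filter, hP]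

lemma mono_zero {S : Type} [CommRing S] [Algebra k S] (α : σ →₀ ℕ) (a : k) (x : σ → S) {j : σ}
    (hj : α j ≠ 0) (hx : x j = 0) : MvPolynomial.aeval x (MvPolynomial.monomial α a) = 0 := by
  rw [MvPolynomial.aeval_monomial, Finsupp.prod,
    Finset.prod_eq_zero (Finsupp.mem_support_iff.mpr hj) (by rw [hx, zero_pow hj]), mul_zero]

lemma prod_chr {W : Type} [AddCommGroup W] {S : Type} [CommRing S] (c : Chr W S) (ν : σ → W)
    (α : σ →₀ ℕ) : ∏ i ∈ α.support, chr c (ν i) ^ α i = chr c (Finsupp.weight ν α) := by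
  classical
  rw [Finsupp.weight_apply, Finsupp.sum]
  induction α.support using Finset.induction_on with
  | empty => simp
  | insert a s ha ih =>
    rw [Finset.sum_insert ha, Finset.prod_insert ha, chr_add, ih, chr_nsmul]

lemma cof_tw {W : Type} [AddCommGroup W] {S S' : Type} [CommRing S] [Algebra k S] [CommRing S']
    [Algebra k S'] (ν : σ → W) (φ : S →ₐ[k] S') (c : Chr W S') (x : σ → S) (α : σ →₀ ℕ) (a : k)
    (j : σ) (hj : α j = 1) (hα : Finsupp.weight ν α = 0) :
    cof α a j (fun i => chr c (ν i) * φ (x i)) = chr c (-(ν j)) * φ (cof α a j x) := by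
  classical
  have hjs : j ∈ α.support := Finsupp.mem_support_iff.mpr (by rw [hj]; exact one_ne_zero)
  have h1 : chr c (ν j) * ∏ i ∈ α.support.erase j, chr c (ν i) ^ α i = 1 := by
    have h2 := prod_chr c ν α
    rw [hα, chr_zero, ← Finset.mul_prod_erase _ _ hjs, hj, pow_one] at h2
    exact h2
  have h3 : ∏ i ∈ α.support.erase j, chr c (ν i) ^ α i = chr c (-(ν j)) := by
    calc ∏ i ∈ α.support.erase j, chr c (ν i) ^ α i
        = (chr c (-(ν j)) * chr c (ν j)) * ∏ i ∈ α.support.erase j, chr c (ν i) ^ α i := by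
          rw [chr_neg_mul, one_mul]
      _ = chr c (-(ν j)) := by rw [mul_assoc, h1, mul_one]
  unfold Pool.Agent.Helper30_Simp2.H63.cof
  simp only [mul_pow, Finset.prod_mul_distrib, map_mul, map_prod, map_pow, AlgHom.commutes]
  rw [h3]
  ring

end

theorem dca : DcaStmt := by
  classical
  intro k _ σ _ f I K hS S _ _
  refine ⟨?_, ?_, ?_, ?_⟩
  · intro x
    have hterm : ∀ α ∈ I, MvPolynomial.aeval x (MvPolynomial.monomial α (MvPolynomial.coeff α f)) =
        (if (∀ j ∈ K, j ∉ (∅ : Finset σ) → α j = 0) then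
          MvPolynomial.aeval x (MvPolynomial.monomial α (MvPolynomial.coeff α f)) else 0) +
        ∑ j ∈ K, if α j = 1 then x j * cof α (MvPolynomial.coeff α f) j x else 0 := by
      intro α hα
      by_cases h0 : ∀ j ∈ K, j ∉ (∅ : Finset σ) → α j = 0
      · rw [if_pos h0, Finset.sum_eq_zero, add_zero]
        intro j hj
        rw [if_neg]
        rw [h0 j hj (Finset.notMem_empty j)]
        exact zero_ne_one
      · rw [if_neg h0, zero_add]
        push Not at h0
        obtain ⟨j, hj, -, hj0⟩ := h0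
        have hj1 := stab_one hS hα hj hj0
        rw [Finset.sum_eq_single_of_mem j hj, if_pos hj1]
        · exact aeval_mon hj1 _ x
        · intro i hi hij
          rw [if_neg]
          rw [stab_zero hS hα hj hj0 hi hij]
          exact zero_ne_one
    rw [aeval_part, aeval_part, Finset.sum_congr rfl hterm, Finset.sum_add_distrib,
      Finset.sum_comm]
    refine congrArg₂ (· + ·) ?_ ?_
    · exact (sum_keep I K ∅
        (fun α => MvPolynomial.aeval x (MvPolynomial.monomial α (MvPolynomial.coeff α f)))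
        (fun α => ∀ j ∈ K, j ∉ (∅ : Finset σ) → α j = 0) fun _ => Iff.rfl).symm
    · refine Finset.sum_congr rfl fun j hj => ?_
      rw [gjv, Finset.sum_filter, Finset.mul_sum]
      refine Finset.sum_congr rfl fun α hα => ?_
      rw [mul_ite, mul_zero]
  · intro x y hxy
    refine ⟨?_, ?_⟩
    · rw [aeval_part, aeval_part]
      refine Finset.sum_congr rfl fun α hα => ?_
      rw [mem_keep] at hα
      rw [MvPolynomial.aeval_monomial, MvPolynomial.aeval_monomial, Finsupp.prod, Finsupp.prod]
      refine congrArg _ (Finset.prod_congr rfl fun i hi => ?_)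
      rw [hxy i]
      intro hiK
      exact Finsupp.mem_support_iff.mp hi (hα.2 i hiK (Finset.notMem_empty i))
    · intro j hj
      rw [gjv, gjv]
      refine Finset.sum_congr rfl fun α hα => ?_
      rw [Finset.mem_filter] at hα
      unfold Pool.Agent.Helper30_Simp2.H63.cof
      refine congrArg _ (Finset.prod_congr rfl fun i hi => ?_)
      rw [hxy i]
      intro hiK
      refine Finsupp.mem_support_iff.mp (Finset.mem_of_mem_erase hi) ?_
      exact stab_zero hS hα.1 hj (by rw [hα.2]; exact one_ne_zero) hiK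
        (Finset.ne_of_mem_erase hi)
  · intro x K' hK' hx
    rw [aeval_part, aeval_part, sum_keep I K K' _ (fun α => ∀ j ∈ K, j ∉ K' → α j = 0)
      fun _ => Iff.rfl]
    refine Finset.sum_congr rfl fun α hα => ?_
    split_ifs with h0
    · rfl
    · push Not at h0
      obtain ⟨j, hj, hjK', hj0⟩ := h0
      exact mono_zero α _ x hj0 (hx j hj hjK')
  · intro S' _ _ W _ ν hν φ c x j hj
    rw [gjv, gjv, map_sum, Finset.mul_sum]
    refine Finset.sum_congr rfl fun α hα => ?_
    rw [Finset.mem_filter] at hα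
    exact cof_tw ν φ c x α _ j hα.2 (hν α hα.1)

end Pool.Agent.GEN.H66
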