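import Pool.Agent.GEN.StmtsZ

/-!
Squad GEN, row RAD: Rado's theorem for vectors.
-/

set_option autoImplicit false

namespace Pool.Agent.GEN.H66

open Finset Pool.Agent.GEN

/-- the vectors of the sets `E i`, `i ∈ s` -/
def un {ι V : Type} (E : ι → Finset V) (s : Finset ι) : Set V := {v | ∃ i ∈ s, v ∈ E i}

private theorem step {ι V : Type} [Fintype ι] [AddCommGroup V] [Module ℚ V]
    [FiniteDimensional ℚ V] [DecidableEq ι] [DecidableEq V] (E : ι → Finset V)
    (hE : ∀ s : Finset ι, s.card ≤ Module.finrank ℚ (Submodule.span ℚ (un E s))) (i : ι)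
    (x₁ x₂ : V) (hx₁ : x₁ ∈ E i) (hx₂ : x₂ ∈ E i) (hne : x₁ ≠ x₂) (s₁ s₂ : Finset ι)
    (h₁ : Module.finrank ℚ (Submodule.span ℚ (un (Function.update E i ((E i).erase x₁)) s₁)) <
      s₁.card)
    (h₂ : Module.finrank ℚ (Submodule.span ℚ (un (Function.update E i ((E i).erase x₂)) s₂)) <
      s₂.card) : False := by
  -- `i` is in both sets
  have hmem : ∀ (x : V) (s : Finset ι),
      Module.finrank ℚ (Submodule.span ℚ (un (Function.update E i ((E i).erase x)) s)) < s.card →
        i ∈ s := by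
    intro x s h
    by_contra hi
    have h3 : un (Function.update E i ((E i).erase x)) s = un E s := by
      ext v
      simp only [un, Set.mem_ofPred_eq]
      constructor
      · rintro ⟨k, hk, hv⟩
        have hki : k ≠ i := fun h => hi (h ▸ hk)
        rw [Function.update_of_ne hki] at hv
        exact ⟨k, hk, hv⟩
      · rintro ⟨k, hk, hv⟩
        have hki : k ≠ i := fun h => hi (h ▸ hk)
        refine ⟨k, hk, ?_⟩
        rw [Function.update_of_ne hki]
        exact hv
    rw [h3] at h
    exact absurd (hE s) (not_le.mpr h)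
  have hi₁ := hmem x₁ s₁ h₁
  have hi₂ := hmem x₂ s₂ h₂
  set U₁ := Submodule.span ℚ (un (Function.update E i ((E i).erase x₁)) s₁) with hU₁
  set U₂ := Submodule.span ℚ (un (Function.update E i ((E i).erase x₂)) s₂) with hU₂
  -- elements of the other sets
  have hk₁ : ∀ k ∈ s₁, k ≠ i → ∀ v ∈ E k, v ∈ U₁ := by
    intro k hk hki v hv
    refine Submodule.subset_span ⟨k, hk, ?_⟩
    rw [Function.update_of_ne hki]
    exact hv
  have hk₂ : ∀ k ∈ s₂, k ≠ i → ∀ v ∈ E k, v ∈ U₂ := by
    intro k hk hki v hv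
    refine Submodule.subset_span ⟨k, hk, ?_⟩
    rw [Function.update_of_ne hki]
    exact hv
  have hv₁ : ∀ v ∈ E i, v ≠ x₁ → v ∈ U₁ := by
    intro v hv hvx
    refine Submodule.subset_span ⟨i, hi₁, ?_⟩
    rw [Function.update_self]
    exact Finset.mem_erase.2 ⟨hvx, hv⟩
  have hv₂ : ∀ v ∈ E i, v ≠ x₂ → v ∈ U₂ := by
    intro v hv hvx
    refine Submodule.subset_span ⟨i, hi₂, ?_⟩
    rw [Function.update_self]
    exact Finset.mem_erase.2 ⟨hvx, hv⟩
  have hsup : Submodule.span ℚ (un E (s₁ ∪ s₂)) ≤ U₁ ⊔ U₂ := by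
    rw [Submodule.span_le]
    rintro v ⟨k, hk, hv⟩
    by_cases hki : k = i
    · subst hki
      by_cases hvx : v = x₁
      · exact Submodule.mem_sup_right (hv₂ v hv (hvx ▸ hne))
      · exact Submodule.mem_sup_left (hv₁ v hv hvx)
    · rcases Finset.mem_union.1 hk with h | h
      · exact Submodule.mem_sup_left (hk₁ k h hki v hv)
      · exact Submodule.mem_sup_right (hk₂ k h hki v hv)
  have hinf : Submodule.span ℚ (un E ((s₁ ∩ s₂).erase i)) ≤ U₁ ⊓ U₂ := by
    rw [Submodule.span_le]
    rintro v ⟨k, hk, hv⟩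
    obtain ⟨hki, hk'⟩ := Finset.mem_erase.1 hk
    obtain ⟨h1, h2⟩ := Finset.mem_inter.1 hk'
    exact ⟨hk₁ k h1 hki v hv, hk₂ k h2 hki v hv⟩
  have d1 := (hE (s₁ ∪ s₂)).trans (Submodule.finrank_mono hsup)
  have d2 := (hE ((s₁ ∩ s₂).erase i)).trans (Submodule.finrank_mono hinf)
  have d3 := Submodule.finrank_sup_add_finrank_inf_eq U₁ U₂
  have d4 := Finset.card_union_add_card_inter s₁ s₂
  have d5 : ((s₁ ∩ s₂).erase i).card = (s₁ ∩ s₂).card - 1 :=
    Finset.card_erase_of_mem (Finset.mem_inter.2 ⟨hi₁, hi₂⟩)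
  have d6 : 0 < (s₁ ∩ s₂).card := Finset.card_pos.2 ⟨i, Finset.mem_inter.2 ⟨hi₁, hi₂⟩⟩
  omega

private theorem base {ι V : Type} [Fintype ι] [AddCommGroup V] [Module ℚ V]
    [FiniteDimensional ℚ V] (E : ι → Finset V)
    (hE : ∀ s : Finset ι, s.card ≤ Module.finrank ℚ (Submodule.span ℚ (un E s)))
    (h1 : ∀ i, ∀ x ∈ E i, ∀ y ∈ E i, x = y) :
    ∃ v : ι → V, (∀ i, v i ∈ E i) ∧ LinearIndependent ℚ v := by
  have hne : ∀ i, ∃ v, v ∈ E i := by
    intro i
    by_contra hcon
    have h2 : un E {i} = ∅ := by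
      rw [Set.eq_empty_iff_forall_notMem]
      rintro v ⟨k, hk, hv⟩
      rw [Finset.mem_singleton] at hk
      subst hk
      exact hcon ⟨v, hv⟩
    have h3 := hE {i}
    rw [h2, Submodule.span_empty, finrank_bot, Finset.card_singleton] at h3
    omega
  choose v hv using hne
  refine ⟨v, hv, ?_⟩
  rw [linearIndependent_iff_card_le_finrank_span]
  have h2 := hE Finset.univ
  have h3 : un E Finset.univ = Set.range v := by
    ext x
    simp only [un, Set.mem_ofPred_eq, Set.mem_range]
    constructor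
    · rintro ⟨k, _, hx⟩
      exact ⟨k, h1 k _ (hv k) _ hx⟩
    · rintro ⟨k, rfl⟩
      exact ⟨k, Finset.mem_univ _, hv k⟩
  rw [h3, Finset.card_univ] at h2
  exact h2

theorem rad : RadStmt := by
  classical
  intro ι V _ _ _ _ E hE
  have main : ∀ (N : ℕ) (E : ι → Finset V), ∑ i, (E i).card = N →
      (∀ s : Finset ι, s.card ≤ Module.finrank ℚ (Submodule.span ℚ (un E s))) →
      ∃ v : ι → V, (∀ i, v i ∈ E i) ∧ LinearIndependent ℚ v := by
    intro N
    induction N using Nat.strong_induction_on with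
    | _ N ih =>
      intro E hN hE
      by_cases h1 : ∀ i, ∀ x ∈ E i, ∀ y ∈ E i, x = y
      · exact base E hE h1
      push Not at h1
      obtain ⟨i, x₁, hx₁, x₂, hx₂, hne⟩ := h1
      have hrec : ∀ x ∈ E i, (∀ s : Finset ι, s.card ≤ Module.finrank ℚ
          (Submodule.span ℚ (un (Function.update E i ((E i).erase x)) s))) →
          ∃ v : ι → V, (∀ i, v i ∈ E i) ∧ LinearIndependent ℚ v := by
        intro x hx hcond
        have hlt : ∑ k, (Function.update E i ((E i).erase x) k).card < N := by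
          rw [← hN]
          refine Finset.sum_lt_sum (fun k _ => ?_) ⟨i, Finset.mem_univ _, ?_⟩
          · by_cases hk : k = i
            · subst hk
              rw [Function.update_self]
              exact Finset.card_le_card (Finset.erase_subset _ _)
            · rw [Function.update_of_ne hk]
          · rw [Function.update_self]
            exact Finset.card_erase_lt_of_mem hx
        obtain ⟨v, hv, hli⟩ := ih _ hlt _ rfl hcond
        refine ⟨v, fun k => ?_, hli⟩
        have h2 := hv k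
        by_cases hk : k = i
        · subst hk
          rw [Function.update_self] at h2
          exact Finset.mem_of_mem_erase h2
        · rw [Function.update_of_ne hk] at h2
          exact h2
      by_cases c1 : ∀ s : Finset ι, s.card ≤ Module.finrank ℚ
          (Submodule.span ℚ (un (Function.update E i ((E i).erase x₁)) s))
      · exact hrec x₁ hx₁ c1
      by_cases c2 : ∀ s : Finset ι, s.card ≤ Module.finrank ℚ
          (Submodule.span ℚ (un (Function.update E i ((E i).erase x₂)) s))
      · exact hrec x₂ hx₂ c2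
      push Not at c1 c2
      obtain ⟨s₁, h₁⟩ := c1
      obtain ⟨s₂, h₂⟩ := c2
      exact absurd (step E hE i x₁ x₂ hx₁ hx₂ hne s₁ s₂ h₁ h₂) not_false
  exact main _ E rfl hE

end Pool.Agent.GEN.H66
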