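import Pool.Agent.GEN.StmtsT

/-!
Squad GEN, block T, row BSM: the Bernstein-Sato polynomial of a constant multiple.
-/

set_option autoImplicit false

namespace Pool.Agent.GEN.H66

open Pool.Agent.Helper6_Mono MvPolynomial

lemma dWord_C_mul {σ : Type} (c : ℂ) (w : List σ) (p : MvPolynomial σ ℂ) :
    dWord w (C c * p) = C c * dWord w p := by
  induction w with
  | nil => rfl
  | cons i w ih =>
    change pderiv i (dWord w (C c * p)) = C c * pderiv i (dWord w p)
    rw [ih, pderiv_C_mul]

lemma localBS_mul {σ : Type} {c : ℂ} (hc : c ≠ 0) {f : MvPolynomial σ ℂ} {b : Polynomial ℂ}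
    (h : LocalBS f b) : LocalBS (C c * f) b := by
  intro p
  obtain ⟨g, hg, P, hP⟩ := h p
  refine ⟨g, hg, P.map fun aw => (Polynomial.C (C c⁻¹) * aw.1, aw.2), fun n => ?_⟩
  have h1 : ∀ aw : Polynomial (MvPolynomial σ ℂ) × List σ,
      (Polynomial.C (C c⁻¹) * aw.1).eval (n : MvPolynomial σ ℂ) *
        dWord aw.2 ((C c * f) ^ (n + 1)) =
      C c ^ n * (aw.1.eval (n : MvPolynomial σ ℂ) * dWord aw.2 (f ^ (n + 1))) := by
    intro aw
    have h2 : (C c * f) ^ (n + 1) = C (c ^ (n + 1)) * f ^ (n + 1) := by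
      rw [mul_pow, ← C_pow]
    have h3 : (C c⁻¹ : MvPolynomial σ ℂ) * C (c ^ (n + 1)) = C c ^ n := by
      rw [← C_mul, pow_succ, ← C_pow]
      refine congrArg C ?_
      field_simp
    rw [h2, dWord_C_mul, Polynomial.eval_mul, Polynomial.eval_C, ← h3]
    ring
  rw [List.map_map]
  have h4 : ((fun aw : Polynomial (MvPolynomial σ ℂ) × List σ =>
      aw.1.eval (n : MvPolynomial σ ℂ) * dWord aw.2 ((C c * f) ^ (n + 1))) ∘
      fun aw : Polynomial (MvPolynomial σ ℂ) × List σ => (Polynomial.C (C c⁻¹) * aw.1, aw.2)) =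
      fun aw : Polynomial (MvPolynomial σ ℂ) × List σ =>
        C c ^ n * (aw.1.eval (n : MvPolynomial σ ℂ) * dWord aw.2 (f ^ (n + 1))) := by
    funext aw
    exact h1 aw
  rw [h4, List.sum_map_mul_left, ← hP n, mul_pow]
  ring

theorem bsm : BsmStmt := by
  intro σ c hc f
  have h : {b | LocalBS (C c * f) b} = {b | LocalBS f b} := by
    ext b
    constructor
    · intro hb
      have h1 := localBS_mul (inv_ne_zero hc) hb
      rw [← mul_assoc, ← C_mul, inv_mul_cancel₀ hc, C_1, one_mul] at h1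
      exact h1
    · intro hb
      exact localBS_mul hc hb
  have key : ∀ s t : Set (Polynomial ℂ), s = t →
      normalize (Submodule.IsPrincipal.generator (Ideal.span s)) =
        normalize (Submodule.IsPrincipal.generator (Ideal.span t)) := by
    rintro s _ rfl
    rfl
  exact key _ _ h

end Pool.Agent.GEN.H66
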